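import Mathlib
import Pool.Agent.Helper92.ABC.Defs

set_option autoImplicit false

/-!
# The triple tool for boxes of abc-triples, from the triple fibre and the size lemmas
-/

namespace Pool.Agent.Helper41.ABC

open Finset Pool.Agent.Helper92.ABC

lemma wt_congr (S : Finset ℕ) (k k' : ℕ → ℕ) (h : ∀ i ∈ S, k i = k' i) :
    wt S k = wt S k' := by
  unfold wt
  exact Finset.sum_congr rfl (fun i hi => by rw [h i hi])

lemma rc_congr (j : ℕ) (S : Finset ℕ) (k k' : ℕ → ℕ) (h : ∀ i ∈ S, k i = k' i)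
    (h6 : k 6 = k' 6) : rc j S k = rc j S k' := by
  unfold rc
  rw [h6, Finset.sum_congr rfl (fun i hi => by rw [h i hi])]

/-- The size inequality needed for the triple fibre. -/
lemma size_ineq (z : ℝ) (hz : 2 ≤ z) (j : ℕ) (hj : 2 ≤ j) (hj4 : j ≤ 4) (al be ga r1 r2 : ℕ)
    (b c : ℝ) (hb : z ^ r1 ≤ b) (hc : z ^ r2 ≤ c) (K : ℝ)
    (hK : z ^ ((((j : ℝ) + 1) * al - ((j : ℝ) - 1) * be + ga - 2 * r1 - r2 + 40) / 2) ≤ K) :
    2 * j * (z ^ (ga + 3)) ^ 3 * (z ^ (al + 3) / z ^ ga) ^ 2 *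
      (z ^ (al + 3) * z ^ (ga + 3) / (z ^ ga * z ^ be)) ^ (j - 1) < b ^ 2 * c * K ^ 2 := by
  have hz0 : 0 < z := by linarith
  have hz1 : 1 < z := by linarith
  have hj1 : ((j - 1 : ℕ) : ℝ) = (j : ℝ) - 1 := by
    rw [Nat.cast_sub (by omega)]; simp
  have hjR : (j : ℝ) ≤ 4 := by exact_mod_cast hj4
  have hjR2 : (2 : ℝ) ≤ j := by exact_mod_cast hj
  set e : ℝ := ((j : ℝ) + 1) * al - ((j : ℝ) - 1) * be + ga - 2 * r1 - r2 + 40 with he
  -- the left side as a real power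
  have e1 : (z ^ (ga + 3)) ^ 3 = z ^ (3 * ((ga : ℝ) + 3)) := by
    rw [← pow_mul, ← Real.rpow_natCast]
    congr 1
    push_cast
    ring
  have e2 : (z ^ (al + 3) / z ^ ga) ^ 2 = z ^ (2 * ((al : ℝ) + 3 - ga)) := by
    rw [← Real.rpow_natCast z (al + 3), ← Real.rpow_natCast z ga, ← Real.rpow_sub hz0,
      ← Real.rpow_natCast _ 2, ← Real.rpow_mul hz0.le]
    congr 1
    push_cast
    ring
  have e3 : (z ^ (al + 3) * z ^ (ga + 3) / (z ^ ga * z ^ be)) ^ (j - 1) =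
      z ^ (((j : ℝ) - 1) * ((al : ℝ) + 6 - be)) := by
    rw [← pow_add, ← pow_add, ← Real.rpow_natCast z (al + 3 + (ga + 3)),
      ← Real.rpow_natCast z (ga + be), ← Real.rpow_sub hz0,
      ← Real.rpow_natCast _ (j - 1), ← Real.rpow_mul hz0.le, hj1]
    congr 1
    push_cast
    ring
  have e4 : 2 * (j : ℝ) ≤ z ^ (3 : ℝ) := by
    have : (z : ℝ) ^ (3 : ℝ) = z ^ 3 := by
      rw [← Real.rpow_natCast]; norm_num
    rw [this]
    have : (2 : ℝ) ^ 3 ≤ z ^ 3 := pow_le_pow_left₀ (by norm_num) hz 3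
    nlinarith
  have hL : 2 * j * (z ^ (ga + 3)) ^ 3 * (z ^ (al + 3) / z ^ ga) ^ 2 *
      (z ^ (al + 3) * z ^ (ga + 3) / (z ^ ga * z ^ be)) ^ (j - 1) ≤
      z ^ (((j : ℝ) + 1) * al - ((j : ℝ) - 1) * be + ga + 36) := by
    rw [e1, e2, e3]
    calc 2 * (j : ℝ) * z ^ (3 * ((ga : ℝ) + 3)) * z ^ (2 * ((al : ℝ) + 3 - ga)) *
        z ^ (((j : ℝ) - 1) * ((al : ℝ) + 6 - be))
        ≤ z ^ (3 : ℝ) * z ^ (3 * ((ga : ℝ) + 3)) * z ^ (2 * ((al : ℝ) + 3 - ga)) *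
        z ^ (((j : ℝ) - 1) * ((al : ℝ) + 6 - be)) := by
          gcongr
      _ = z ^ (3 + 3 * ((ga : ℝ) + 3) + 2 * ((al : ℝ) + 3 - ga) +
          ((j : ℝ) - 1) * ((al : ℝ) + 6 - be)) := by
          rw [Real.rpow_add hz0, Real.rpow_add hz0, Real.rpow_add hz0]
      _ ≤ _ := by
          apply Real.rpow_le_rpow_of_exponent_le hz1.le
          nlinarith
  have hR : z ^ (((j : ℝ) + 1) * al - ((j : ℝ) - 1) * be + ga + 40) ≤ b ^ 2 * c * K ^ 2 := by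
    have h1 : z ^ (((j : ℝ) + 1) * al - ((j : ℝ) - 1) * be + ga + 40) =
        (z ^ r1) ^ 2 * z ^ r2 * (z ^ (e / 2)) ^ 2 := by
      rw [← pow_mul, ← Real.rpow_natCast z (r1 * 2), ← Real.rpow_natCast z r2,
        ← Real.rpow_natCast _ 2, ← Real.rpow_mul hz0.le, ← Real.rpow_add hz0,
        ← Real.rpow_add hz0]
      congr 1
      rw [he]
      push_cast
      ring
    rw [h1]
    have h2 : (0 : ℝ) ≤ z ^ (e / 2) := Real.rpow_nonneg hz0.le _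
    have h3 : (0 : ℝ) ≤ z ^ r1 := by positivity
    have h4 : (0 : ℝ) ≤ z ^ r2 := by positivity
    have h5 : 0 ≤ b := h3.trans hb
    have h6 : 0 ≤ c := h4.trans hc
    gcongr
  calc _ ≤ _ := hL
    _ < _ := by
        apply Real.rpow_lt_rpow_of_exponent_lt hz1
        linarith
    _ ≤ _ := hR

theorem tool_triple_of
    (part_mul_part : ∀ (S : Finset ℕ), S ⊆ full → ∀ n : ℕ, n ≠ 0 →
      part S n * part (full \ S) n = n)
    (radn_part : ∀ (S : Finset ℕ) (n : ℕ), radn (part S n) = rpart S n)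
    (part_eq_rootp_pow : ∀ (j : ℕ), 1 ≤ j → ∀ (S : Finset ℕ), S ⊆ full →
      (j = 1 ∨ ∀ i ∈ S, i < 5 ∧ j ∣ i) → ∀ n : ℕ, part S n = rootp j S n ^ j)
    (rpart_upper : ∀ Z : ℕ, 2 ≤ Z → ∀ S : Finset ℕ, S ⊆ full → ∀ n : ℕ, n ≠ 0 →
      rpart S n ≤ Z ^ wt S (fun i => Nat.log Z (coord n i)))
    (rootp_lower : ∀ Z : ℕ, 2 ≤ Z → ∀ j : ℕ, 1 ≤ j → ∀ S : Finset ℕ, S ⊆ full →
      (j = 1 ∨ ∀ i ∈ S, i < 5 ∧ j ∣ i) → ∀ n : ℕ, n ≠ 0 →
      Z ^ rc j S (fun i => Nat.log Z (coord n i)) ≤ rootp j S n)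
    (rootp_upper : ∀ Z : ℕ, 2 ≤ Z → ∀ j : ℕ, 1 ≤ j → ∀ S : Finset ℕ, S ⊆ full →
      (j = 1 ∨ ∀ i ∈ S, i < 5 ∧ j ∣ i) → ∀ n : ℕ, n ≠ 0 →
      rootp j S n ≤ Z ^ (rc j S (fun i => Nat.log Z (coord n i)) + if j = 1 then 16 else 3))
    (card_radn_le : ∀ ε : ℝ, 0 < ε → ∃ C : ℝ, 0 < C ∧ ∀ X R : ℕ,
      (((Finset.Icc 1 X).filter (fun d => radn d ≤ R)).card : ℝ) ≤ C * (X : ℝ) ^ ε * R)
    (triple_fiber : ∀ j : ℕ, 2 ≤ j → ∀ ε : ℝ, 0 < ε →
      ∃ C : ℝ, 0 < C ∧ ∀ (a b c : ℕ) (A1 B0 C0 C1 K : ℝ) (F : Finset (ℕ × ℕ × ℕ)),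
      1 ≤ a → 1 ≤ b → 1 ≤ c → a.Coprime b → b.Coprime c → a.Coprime c →
      0 < A1 → 0 < B0 → 0 < C0 → C0 ≤ C1 → 1 ≤ K →
      2 * j * C1 ^ 3 * (A1 / C0) ^ 2 * (A1 * C1 / (C0 * B0)) ^ (j - 1) <
        (b : ℝ) ^ 2 * c * K ^ 2 →
      (∀ P ∈ F, a * P.1 ^ j + b * P.2.1 ^ j = c * P.2.2 ^ j ∧ 0 < P.1 ∧ 0 < P.2.1 ∧
        0 < P.2.2 ∧ (a * P.1 ^ j).Coprime (b * P.2.1 ^ j) ∧ (P.1 : ℝ) ≤ A1 ∧
        B0 ≤ (P.2.1 : ℝ) ∧ C0 ≤ (P.2.2 : ℝ) ∧ (P.2.2 : ℝ) ≤ C1) →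
      (F.card : ℝ) ≤ C * ((a * b * c : ℕ) : ℝ) ^ ε * K)
    (ε : ℝ) (hε : 0 < ε) : ∃ C : ℝ, 0 < C ∧ ∀ (Z Q : ℕ) (k : Fin 3 → ℕ → ℕ)
    (j : ℕ) (U : Fin 3 → Finset ℕ), 2 ≤ Z → 2 ≤ j → j ≤ 4 → (∀ n, U n ⊆ full) →
    (∀ n, ∀ i ∈ full \ U n, i < 5 ∧ j ∣ i) →
    ((Box Z Q k).card : ℝ) ≤ C * ((Z : ℝ) ^ Q) ^ ε * (Z : ℝ) ^ (∑ n, wt (U n) (k n)) *
      (1 + (Z : ℝ) ^ ((((j : ℝ) + 1) * rc j (full \ U 0) (k 0)
        - ((j : ℝ) - 1) * rc j (full \ U 1) (k 1) + rc j (full \ U 2) (k 2)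
        - 2 * rc 1 (U 1) (k 1) - rc 1 (U 2) (k 2) + 40) / 2)) := by
  obtain ⟨C1, hC1, hcu⟩ := card_radn_le (ε / 6) (by positivity)
  obtain ⟨G2, hG2, hg2⟩ := triple_fiber 2 (by norm_num) (ε / 6) (by positivity)
  obtain ⟨G3, hG3, hg3⟩ := triple_fiber 3 (by norm_num) (ε / 6) (by positivity)
  obtain ⟨G4, hG4, hg4⟩ := triple_fiber 4 (by norm_num) (ε / 6) (by positivity)
  obtain ⟨G, hG, hg⟩ : ∃ G : ℝ, 0 < G ∧ ∀ (j : ℕ), 2 ≤ j → j ≤ 4 →
      ∀ (a b c : ℕ) (A1 B0 C0 C1 K : ℝ) (F : Finset (ℕ × ℕ × ℕ)),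
      1 ≤ a → 1 ≤ b → 1 ≤ c → a.Coprime b → b.Coprime c → a.Coprime c →
      0 < A1 → 0 < B0 → 0 < C0 → C0 ≤ C1 → 1 ≤ K →
      2 * j * C1 ^ 3 * (A1 / C0) ^ 2 * (A1 * C1 / (C0 * B0)) ^ (j - 1) <
        (b : ℝ) ^ 2 * c * K ^ 2 →
      (∀ P ∈ F, a * P.1 ^ j + b * P.2.1 ^ j = c * P.2.2 ^ j ∧ 0 < P.1 ∧ 0 < P.2.1 ∧
        0 < P.2.2 ∧ (a * P.1 ^ j).Coprime (b * P.2.1 ^ j) ∧ (P.1 : ℝ) ≤ A1 ∧
        B0 ≤ (P.2.1 : ℝ) ∧ C0 ≤ (P.2.2 : ℝ) ∧ (P.2.2 : ℝ) ≤ C1) →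
      (F.card : ℝ) ≤ G * ((a * b * c : ℕ) : ℝ) ^ (ε / 6) * K := by
    refine ⟨G2 + G3 + G4, by positivity, ?_⟩
    intro j hj hj4 a b c A1 B0 C0 C1 K F h1 h2 h3 h4 h5 h6 h7 h8 h9 h10 h11 h12 h13
    have hX : 0 ≤ ((a * b * c : ℕ) : ℝ) ^ (ε / 6) * K :=
      mul_nonneg (Real.rpow_nonneg (Nat.cast_nonneg _) _) (by linarith)
    obtain rfl | rfl | rfl : j = 2 ∨ j = 3 ∨ j = 4 := by omega
    · have := hg2 a b c A1 B0 C0 C1 K F h1 h2 h3 h4 h5 h6 h7 h8 h9 h10 h11 h12 h13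
      nlinarith
    · have := hg3 a b c A1 B0 C0 C1 K F h1 h2 h3 h4 h5 h6 h7 h8 h9 h10 h11 h12 h13
      nlinarith
    · have := hg4 a b c A1 B0 C0 C1 K F h1 h2 h3 h4 h5 h6 h7 h8 h9 h10 h11 h12 h13
      nlinarith
  refine ⟨C1 ^ 3 * G, by positivity, ?_⟩
  intro Z Q k j U hZ hj hj4 hU hV
  have hz : (2 : ℝ) ≤ (Z : ℝ) := by exact_mod_cast hZ
  have hz0 : (0 : ℝ) < (Z : ℝ) := by linarith
  have hZ0 : 0 < Z := by omega
  have hj1 : 1 ≤ j := by omega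
  -- the facts for members of the box
  have hbox : ∀ t ∈ Box Z Q k, t.1.Coprime t.2 ∧ (∀ n, num t n ≠ 0) ∧
      (∀ n, num t n ≤ Z ^ Q) ∧ (∀ n : Fin 3, ∀ i ∈ Finset.Icc 1 6,
        Nat.log Z (coord (num t n) i) = k n i) := by
    intro t ht
    simp only [Box, Finset.mem_filter, Finset.mem_product, Finset.mem_Icc] at ht
    obtain ⟨⟨⟨ha1, ha2⟩, ⟨hb1, hb2⟩⟩, hco, hs, hk⟩ := ht
    refine ⟨hco, ?_, ?_, ?_⟩
    · intro n
      fin_cases n <;> simp [num] <;> omega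
    · intro n
      fin_cases n <;> simp [num] <;> omega
    · intro n i hi
      exact hk n i (Finset.mem_Icc.1 hi)
  have hkU : ∀ t ∈ Box Z Q k, ∀ n : Fin 3, ∀ S : Finset ℕ, S ⊆ full →
      wt S (fun i => Nat.log Z (coord (num t n) i)) = wt S (k n) := by
    intro t ht n S hS
    apply wt_congr
    intro i hi
    exact (hbox t ht).2.2.2 n i (Finset.Icc_subset_Icc_right (by norm_num) (hS hi))
  have hkR : ∀ t ∈ Box Z Q k, ∀ n : Fin 3, ∀ (j : ℕ) (S : Finset ℕ), S ⊆ full →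
      rc j S (fun i => Nat.log Z (coord (num t n) i)) = rc j S (k n) := by
    intro t ht n j S hS
    apply rc_congr
    · intro i hi
      exact (hbox t ht).2.2.2 n i (Finset.Icc_subset_Icc_right (by norm_num) (hS hi))
    · exact (hbox t ht).2.2.2 n 6 (Finset.mem_Icc.2 ⟨by norm_num, le_rfl⟩)
  have hsub : ∀ n, full \ U n ⊆ full := fun n => Finset.sdiff_subset
  -- decomposition of the numbers
  have hdec : ∀ t ∈ Box Z Q k, ∀ n : Fin 3,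
      part (U n) (num t n) * rootp j (full \ U n) (num t n) ^ j = num t n := by
    intro t ht n
    rw [← part_eq_rootp_pow j hj1 (full \ U n) (hsub n) (Or.inr (hV n)) (num t n)]
    exact part_mul_part (U n) (hU n) (num t n) ((hbox t ht).2.1 n)
  have hpd : ∀ t ∈ Box Z Q k, ∀ n : Fin 3, part (U n) (num t n) ∣ num t n := by
    intro t ht n
    exact ⟨_, (hdec t ht n).symm⟩
  have hpp : ∀ t ∈ Box Z Q k, ∀ n : Fin 3, 0 < part (U n) (num t n) := by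
    intro t ht n
    exact Nat.pos_of_dvd_of_pos (hpd t ht n) (Nat.pos_of_ne_zero ((hbox t ht).2.1 n))
  set f : ℕ × ℕ → ℕ × ℕ × ℕ := fun t =>
    (part (U 0) (num t 0), part (U 1) (num t 1), part (U 2) (num t 2)) with hf
  set g : ℕ × ℕ → ℕ × ℕ × ℕ := fun t =>
    (rootp j (full \ U 0) (num t 0), rootp j (full \ U 1) (num t 1),
      rootp j (full \ U 2) (num t 2)) with hgdef
  set T : Fin 3 → Finset ℕ := fun n =>
    (Finset.Icc 1 (Z ^ Q)).filter (fun d => radn d ≤ Z ^ wt (U n) (k n)) with hT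
  have hTm : ∀ t ∈ Box Z Q k, ∀ n : Fin 3, part (U n) (num t n) ∈ T n := by
    intro t ht n
    simp only [hT, Finset.mem_filter, Finset.mem_Icc]
    refine ⟨⟨hpp t ht n, ?_⟩, ?_⟩
    · exact (Nat.le_of_dvd (Nat.pos_of_ne_zero ((hbox t ht).2.1 n)) (hpd t ht n)).trans
        ((hbox t ht).2.2.1 n)
    · rw [radn_part, ← hkU t ht n (U n) (hU n)]
      exact rpart_upper Z hZ (U n) (hU n) (num t n) ((hbox t ht).2.1 n)
  have hTc : ∀ n : Fin 3, ((T n).card : ℝ) ≤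
      C1 * ((Z : ℝ) ^ Q) ^ (ε / 6) * (Z : ℝ) ^ wt (U n) (k n) := by
    intro n
    have := hcu (Z ^ Q) (Z ^ wt (U n) (k n))
    push_cast at this
    exact this
  set e : ℝ := (((j : ℝ) + 1) * rc j (full \ U 0) (k 0)
        - ((j : ℝ) - 1) * rc j (full \ U 1) (k 1) + rc j (full \ U 2) (k 2)
        - 2 * rc 1 (U 1) (k 1) - rc 1 (U 2) (k 2) + 40) / 2 with he
  have hze : (0 : ℝ) ≤ (Z : ℝ) ^ e := Real.rpow_nonneg hz0.le _
  -- the fibres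
  have hfib : ∀ b ∈ (T 0 ×ˢ T 1 ×ˢ T 2),
      (((Box Z Q k).filter (fun t => f t = b)).card : ℝ) ≤
      G * (((Z : ℝ) ^ Q) ^ (3 : ℕ)) ^ (ε / 6) * (1 + (Z : ℝ) ^ e) := by
    intro b hb
    rcases ((Box Z Q k).filter (fun t => f t = b)).eq_empty_or_nonempty with h0 | ⟨t0, ht0⟩
    · rw [h0]
      simp only [Finset.card_empty, Nat.cast_zero]
      positivity
    rw [Finset.mem_filter] at ht0
    obtain ⟨ht0, hft0⟩ := ht0
    have hbeq : b = (part (U 0) (num t0 0), part (U 1) (num t0 1), part (U 2) (num t0 2)) :=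
      hft0.symm
    have hcard : (((Box Z Q k).filter (fun t => f t = b)).image g).card =
        ((Box Z Q k).filter (fun t => f t = b)).card := by
      apply Finset.card_image_of_injOn
      intro t ht t' ht' htt
      rw [Finset.mem_coe, Finset.mem_filter] at ht ht'
      have hff : f t = f t' := ht.2.trans ht'.2.symm
      simp only [hf, Prod.mk.injEq] at hff
      simp only [hgdef, Prod.mk.injEq] at htt
      have h0 : num t 0 = num t' 0 := by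
        rw [← hdec t ht.1 0, ← hdec t' ht'.1 0, hff.1, htt.1]
      have h1 : num t 1 = num t' 1 := by
        rw [← hdec t ht.1 1, ← hdec t' ht'.1 1, hff.2.1, htt.2.1]
      simp only [num, Matrix.cons_val_zero, Matrix.cons_val_one] at h0 h1
      exact Prod.ext h0 h1
    rw [← hcard]
    have hco0 : (num t0 0).Coprime (num t0 1) := by
      simpa [num] using (hbox t0 ht0).1
    have hco1 : (num t0 1).Coprime (num t0 2) := by
      have := (hbox t0 ht0).1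
      simp only [num, Matrix.cons_val_one, Matrix.cons_val]
      rw [Nat.coprime_add_self_right]
      exact this.symm
    have hco2 : (num t0 0).Coprime (num t0 2) := by
      have := (hbox t0 ht0).1
      simp only [num, Matrix.cons_val_zero, Matrix.cons_val]
      rw [Nat.coprime_self_add_right]
      exact this
    have key := hg j hj hj4 b.1 b.2.1 b.2.2
      ((Z : ℝ) ^ (rc j (full \ U 0) (k 0) + 3)) ((Z : ℝ) ^ (rc j (full \ U 1) (k 1)))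
      ((Z : ℝ) ^ (rc j (full \ U 2) (k 2))) ((Z : ℝ) ^ (rc j (full \ U 2) (k 2) + 3))
      (max 1 ((Z : ℝ) ^ e)) (((Box Z Q k).filter (fun t => f t = b)).image g)
      (by rw [hbeq]; exact hpp t0 ht0 0) (by rw [hbeq]; exact hpp t0 ht0 1)
      (by rw [hbeq]; exact hpp t0 ht0 2)
      (by rw [hbeq]; exact Nat.Coprime.of_dvd (hpd t0 ht0 0) (hpd t0 ht0 1) hco0)
      (by rw [hbeq]; exact Nat.Coprime.of_dvd (hpd t0 ht0 1) (hpd t0 ht0 2) hco1)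
      (by rw [hbeq]; exact Nat.Coprime.of_dvd (hpd t0 ht0 0) (hpd t0 ht0 2) hco2)
      (by positivity) (by positivity) (by positivity)
      (pow_le_pow_right₀ (by linarith) (by omega)) (le_max_left _ _)
      (by
        apply size_ineq (Z : ℝ) hz j hj hj4 _ _ _ (rc 1 (U 1) (k 1)) (rc 1 (U 2) (k 2))
        · rw [hbeq]
          have h1 := rootp_lower Z hZ 1 le_rfl (U 1) (hU 1) (Or.inl rfl) (num t0 1)
            ((hbox t0 ht0).2.1 1)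
          rw [hkR t0 ht0 1 1 (U 1) (hU 1)] at h1
          have h2 := part_eq_rootp_pow 1 le_rfl (U 1) (hU 1) (Or.inl rfl) (num t0 1)
          rw [pow_one] at h2
          simp only
          rw [h2]
          exact_mod_cast h1
        · rw [hbeq]
          have h1 := rootp_lower Z hZ 1 le_rfl (U 2) (hU 2) (Or.inl rfl) (num t0 2)
            ((hbox t0 ht0).2.1 2)
          rw [hkR t0 ht0 2 1 (U 2) (hU 2)] at h1
          have h2 := part_eq_rootp_pow 1 le_rfl (U 2) (hU 2) (Or.inl rfl) (num t0 2)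
          rw [pow_one] at h2
          simp only
          rw [h2]
          exact_mod_cast h1
        · exact le_max_right _ _)
      (by
        intro P hP
        rw [Finset.mem_image] at hP
        obtain ⟨t, ht, rfl⟩ := hP
        rw [Finset.mem_filter] at ht
        obtain ⟨ht, hft⟩ := ht
        have hbt : b = (part (U 0) (num t 0), part (U 1) (num t 1), part (U 2) (num t 2)) :=
          hft.symm
        have hlow : ∀ n : Fin 3, Z ^ rc j (full \ U n) (k n) ≤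
            rootp j (full \ U n) (num t n) := by
          intro n
          have := rootp_lower Z hZ j hj1 (full \ U n) (hsub n) (Or.inr (hV n)) (num t n)
            ((hbox t ht).2.1 n)
          rwa [hkR t ht n j (full \ U n) (hsub n)] at this
        have hupp : ∀ n : Fin 3, rootp j (full \ U n) (num t n) ≤
            Z ^ (rc j (full \ U n) (k n) + 3) := by
          intro n
          have := rootp_upper Z hZ j hj1 (full \ U n) (hsub n) (Or.inr (hV n)) (num t n)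
            ((hbox t ht).2.1 n)
          rwa [hkR t ht n j (full \ U n) (hsub n), if_neg (by omega)] at this
        have hpos : ∀ n : Fin 3, 0 < rootp j (full \ U n) (num t n) := fun n =>
          lt_of_lt_of_le (by positivity) (hlow n)
        have hco : (num t 0).Coprime (num t 1) := by
          simpa [num] using (hbox t ht).1
        simp only [hgdef]
        rw [hbt]
        simp only
        rw [hdec t ht 0, hdec t ht 1, hdec t ht 2]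
        refine ⟨?_, hpos 0, hpos 1, hpos 2, hco, ?_, ?_, ?_, ?_⟩
        · simp [num]
        · exact_mod_cast hupp 0
        · exact_mod_cast hlow 1
        · exact_mod_cast hlow 2
        · exact_mod_cast hupp 2)
    refine key.trans ?_
    have hmax : max 1 ((Z : ℝ) ^ e) ≤ 1 + (Z : ℝ) ^ e := max_le (by linarith) (by linarith)
    have hprod : ((b.1 * b.2.1 * b.2.2 : ℕ) : ℝ) ≤ ((Z : ℝ) ^ Q) ^ (3 : ℕ) := by
      have h0 : b.1 ≤ Z ^ Q := by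
        have := hTm t0 ht0 0
        simp only [hT, Finset.mem_filter, Finset.mem_Icc] at this
        rw [hbeq]; exact this.1.2
      have h1 : b.2.1 ≤ Z ^ Q := by
        have := hTm t0 ht0 1
        simp only [hT, Finset.mem_filter, Finset.mem_Icc] at this
        rw [hbeq]; exact this.1.2
      have h2 : b.2.2 ≤ Z ^ Q := by
        have := hTm t0 ht0 2
        simp only [hT, Finset.mem_filter, Finset.mem_Icc] at this
        rw [hbeq]; exact this.1.2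
      have h3 : b.1 * b.2.1 * b.2.2 ≤ (Z ^ Q) ^ 3 := by
        calc b.1 * b.2.1 * b.2.2 ≤ Z ^ Q * Z ^ Q * Z ^ Q := by gcongr
          _ = (Z ^ Q) ^ 3 := by ring
      exact_mod_cast h3
    have hrp : ((b.1 * b.2.1 * b.2.2 : ℕ) : ℝ) ^ (ε / 6) ≤
        (((Z : ℝ) ^ Q) ^ (3 : ℕ)) ^ (ε / 6) :=
      Real.rpow_le_rpow (Nat.cast_nonneg _) hprod (by positivity)
    have hnn : (0 : ℝ) ≤ (((Z : ℝ) ^ Q) ^ (3 : ℕ)) ^ (ε / 6) := by positivity
    calc G * ((b.1 * b.2.1 * b.2.2 : ℕ) : ℝ) ^ (ε / 6) * max 1 ((Z : ℝ) ^ e)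
        ≤ G * (((Z : ℝ) ^ Q) ^ (3 : ℕ)) ^ (ε / 6) * max 1 ((Z : ℝ) ^ e) := by
          gcongr
      _ ≤ _ := by gcongr
  -- the total
  have hmaps : ∀ t ∈ Box Z Q k, f t ∈ (T 0 ×ˢ T 1 ×ˢ T 2) := by
    intro t ht
    simp only [hf, Finset.mem_product]
    exact ⟨hTm t ht 0, hTm t ht 1, hTm t ht 2⟩
  have htot : ((Box Z Q k).card : ℝ) ≤ ((T 0 ×ˢ T 1 ×ˢ T 2).card : ℝ) *
      (G * (((Z : ℝ) ^ Q) ^ (3 : ℕ)) ^ (ε / 6) * (1 + (Z : ℝ) ^ e)) := by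
    rw [Finset.card_eq_sum_card_fiberwise (f := f) (t := T 0 ×ˢ T 1 ×ˢ T 2) hmaps]
    push_cast
    have := Finset.sum_le_card_nsmul (T 0 ×ˢ T 1 ×ˢ T 2)
      (fun b => (((Box Z Q k).filter (fun t => f t = b)).card : ℝ)) _ hfib
    rw [nsmul_eq_mul] at this
    exact this
  refine htot.trans ?_
  have hc3 : ((T 0 ×ˢ T 1 ×ˢ T 2).card : ℝ) ≤
      C1 ^ 3 * (((Z : ℝ) ^ Q) ^ (ε / 6)) ^ 3 * (Z : ℝ) ^ (∑ n, wt (U n) (k n)) := by
    rw [Finset.card_product, Finset.card_product]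
    push_cast
    have h0 := hTc 0
    have h1 := hTc 1
    have h2 := hTc 2
    calc ((T 0).card : ℝ) * (((T 1).card : ℝ) * ((T 2).card : ℝ))
        ≤ (C1 * ((Z : ℝ) ^ Q) ^ (ε / 6) * (Z : ℝ) ^ wt (U 0) (k 0)) *
          ((C1 * ((Z : ℝ) ^ Q) ^ (ε / 6) * (Z : ℝ) ^ wt (U 1) (k 1)) *
          (C1 * ((Z : ℝ) ^ Q) ^ (ε / 6) * (Z : ℝ) ^ wt (U 2) (k 2))) := by
          gcongr
      _ = _ := by
          rw [Fin.sum_univ_three, pow_add, pow_add]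
          ring
  have hpw : (((Z : ℝ) ^ Q) ^ (ε / 6)) ^ 3 * (((Z : ℝ) ^ Q) ^ (3 : ℕ)) ^ (ε / 6) =
      ((Z : ℝ) ^ Q) ^ ε := by
    have hzq : (0 : ℝ) ≤ (Z : ℝ) ^ Q := by positivity
    rw [← Real.rpow_natCast (((Z : ℝ) ^ Q) ^ (ε / 6)) 3, ← Real.rpow_natCast ((Z : ℝ) ^ Q) 3,
      ← Real.rpow_mul hzq, ← Real.rpow_mul hzq, ← Real.rpow_add (by positivity)]
    congr 1
    push_cast
    ring
  calc ((T 0 ×ˢ T 1 ×ˢ T 2).card : ℝ) *
      (G * (((Z : ℝ) ^ Q) ^ (3 : ℕ)) ^ (ε / 6) * (1 + (Z : ℝ) ^ e))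
      ≤ (C1 ^ 3 * (((Z : ℝ) ^ Q) ^ (ε / 6)) ^ 3 * (Z : ℝ) ^ (∑ n, wt (U n) (k n))) *
      (G * (((Z : ℝ) ^ Q) ^ (3 : ℕ)) ^ (ε / 6) * (1 + (Z : ℝ) ^ e)) := by
        gcongr
    _ = C1 ^ 3 * G * ((((Z : ℝ) ^ Q) ^ (ε / 6)) ^ 3 * (((Z : ℝ) ^ Q) ^ (3 : ℕ)) ^ (ε / 6)) *
        (Z : ℝ) ^ (∑ n, wt (U n) (k n)) * (1 + (Z : ℝ) ^ e) := by ring
    _ = _ := by rw [hpw]

end Pool.Agent.Helper41.ABC
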